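import Pool.Agent.W751.RR.Stm

/-! RR-CNT: counting roots in an annulus by Jensen's formula. -/

set_option autoImplicit false

open Polynomial Real

namespace Pool.Agent.W839.RR.Cnt

/-- value for one root -/
noncomputable def ph (x s : ℝ) : ℝ := Real.log s + Real.posLog (s⁻¹ * x)

lemma prod_mahler (s : ℝ) (hs : 0 < s) (m : Multiset ℂ) :
    ((m.map fun c => (C (s : ℂ) * X + C (-c) : ℂ[X])).prod ≠ 0) ∧
    ((m.map fun c => (C (s : ℂ) * X + C (-c) : ℂ[X])).prod).logMahlerMeasure =
      (m.map fun c => ph ‖c‖ s).sum := by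
  have hs' : (s : ℂ) ≠ 0 := by exact_mod_cast hs.ne'
  have hne : ∀ c : ℂ, (C (s : ℂ) * X + C (-c) : ℂ[X]) ≠ 0 := by
    intro c h
    have := congrArg (fun p => Polynomial.coeff p 1) h
    simp at this
    exact hs.ne' this
  induction m using Multiset.induction_on with
  | empty => simp
  | cons c m ih =>
    obtain ⟨h1, h2⟩ := ih
    have h3 : (C (s : ℂ) * X + C (-c)) * (m.map fun c => (C (s : ℂ) * X + C (-c) : ℂ[X])).prod ≠ 0 :=
      mul_ne_zero (hne c) h1
    rw [Multiset.map_cons, Multiset.prod_cons, Multiset.map_cons, Multiset.sum_cons]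
    refine ⟨h3, ?_⟩
    rw [logMahlerMeasure_mul_eq_add_logMahlerMeasure h3, h2,
      logMahlerMeasure_C_mul_X_add_C hs']
    congr 1
    unfold ph
    rw [norm_mul, norm_inv, norm_neg, Complex.norm_real, Real.norm_of_nonneg hs.le]

lemma jensen (D : ℂ[X]) (hD : D ≠ 0) (s : ℝ) (hs : 0 < s) :
    Real.circleAverage (fun w : ℂ => Real.log ‖D.eval w‖) 0 s =
      Real.log ‖D.leadingCoeff‖ + (D.roots.map fun c => ph ‖c‖ s).sum := by
  have h1 : Real.circleAverage (fun w : ℂ => Real.log ‖D.eval w‖) 0 s =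
      (D.comp (C (s : ℂ) * X)).logMahlerMeasure := by
    rw [circleAverage_eq_circleAverage_zero_one, logMahlerMeasure_def]
    congr 1
    funext z
    rw [eval_comp, eval_mul, eval_C, eval_X, add_zero]
  have h2 : D = C D.leadingCoeff * (D.roots.map fun c => (X - C c)).prod := by
    have := C_leadingCoeff_mul_prod_multiset_X_sub_C (p := D)
      (splits_iff_card_roots.1 (IsAlgClosed.splits D))
    exact this.symm
  have h3 : D.comp (C (s : ℂ) * X) =
      C D.leadingCoeff * (D.roots.map fun c => (C (s : ℂ) * X + C (-c) : ℂ[X])).prod := by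
    conv_lhs => rw [h2]
    rw [mul_comp, C_comp, multiset_prod_comp, Multiset.map_map]
    congr 3
    funext c
    simp [sub_eq_add_neg]
  obtain ⟨h4, h5⟩ := prod_mahler s hs D.roots
  rw [h1, h3, logMahlerMeasure_C_mul (leadingCoeff_ne_zero.2 hD) h4, h5]

lemma ph_zero (s : ℝ) : ph 0 s = Real.log s := by simp [ph]

lemma ph_pos {x s : ℝ} (hx : 0 < x) (hs : 0 < s) : ph x s = max (Real.log s) (Real.log x) := by
  unfold ph Real.posLog
  rw [Real.log_mul (inv_ne_zero hs.ne') hx.ne', Real.log_inv]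
  rcases le_total (Real.log x) (Real.log s) with h | h
  · rw [max_eq_left h, max_eq_left (by linarith)]; ring
  · rw [max_eq_right h, max_eq_right (by linarith)]; ring

lemma one (x r h : ℝ) (hx : 0 ≤ x) (hr : 0 < r) (_hh : 0 < h) :
    0 ≤ ph x (r * Real.exp (4 * h)) + ph x (r * Real.exp (-(4 * h))) - 2 * ph x r ∧
    (r * Real.exp (-(2 * h)) ≤ x → x ≤ r * Real.exp (2 * h) →
      2 * h ≤ ph x (r * Real.exp (4 * h)) + ph x (r * Real.exp (-(4 * h))) - 2 * ph x r) := by
  have e1 : Real.log (r * Real.exp (4 * h)) = Real.log r + 4 * h := by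
    rw [Real.log_mul hr.ne' (Real.exp_pos _).ne', Real.log_exp]
  have e2 : Real.log (r * Real.exp (-(4 * h))) = Real.log r - 4 * h := by
    rw [Real.log_mul hr.ne' (Real.exp_pos _).ne', Real.log_exp]; ring
  rcases hx.eq_or_lt with h0 | h0
  · rw [← h0, ph_zero, ph_zero, ph_zero, e1, e2]
    refine ⟨by linarith, fun h1 _ => ?_⟩
    have : 0 < r * Real.exp (-(2 * h)) := by positivity
    linarith
  · rw [ph_pos h0 (by positivity), ph_pos h0 (by positivity), ph_pos h0 hr, e1, e2]
    set t := Real.log r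
    set y := Real.log x with hy
    have m1 : max t y = t ∨ max t y = y := max_choice _ _
    have l1 := le_max_left (t + 4 * h) y
    have l2 := le_max_right (t + 4 * h) y
    have l3 := le_max_left (t - 4 * h) y
    have l4 := le_max_right (t - 4 * h) y
    refine ⟨?_, fun h1 h2 => ?_⟩
    · rcases m1 with h' | h' <;> rw [h'] <;> linarith
    · have h3 : t - 2 * h ≤ y := by
        have := Real.log_le_log (by positivity) h1
        rw [Real.log_mul hr.ne' (Real.exp_pos _).ne', Real.log_exp] at this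
        linarith
      have h4 : y ≤ t + 2 * h := by
        have := Real.log_le_log h0 h2
        rw [Real.log_mul hr.ne' (Real.exp_pos _).ne', Real.log_exp] at this
        linarith
      rcases m1 with h' | h' <;> rw [h'] <;> linarith

theorem main : Pool.Agent.W751.RR.S_CNT := by
  intro D hD r h hr hh
  classical
  rw [jensen D hD _ (by positivity), jensen D hD _ (by positivity), jensen D hD r hr]
  have hsum : ∀ s : ℝ, (D.roots.map fun c => ph ‖c‖ s).sum =
      ∑ c ∈ D.roots.toFinset, (D.roots.count c : ℝ) * ph ‖c‖ s := by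
    intro s
    rw [Finset.sum_multiset_map_count]
    simp only [nsmul_eq_mul]
  rw [hsum, hsum, hsum]
  have key : 2 * h * ((D.roots.toFinset.filter
      (fun c => r * Real.exp (-(2 * h)) ≤ ‖c‖ ∧ ‖c‖ ≤ r * Real.exp (2 * h))).card : ℝ) ≤
      ∑ c ∈ D.roots.toFinset, (D.roots.count c : ℝ) * (ph ‖c‖ (r * Real.exp (4 * h)) +
        ph ‖c‖ (r * Real.exp (-(4 * h))) - 2 * ph ‖c‖ r) := by
    have h1 : 2 * h * ((D.roots.toFinset.filter
      (fun c => r * Real.exp (-(2 * h)) ≤ ‖c‖ ∧ ‖c‖ ≤ r * Real.exp (2 * h))).card : ℝ) =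
      ∑ c ∈ D.roots.toFinset.filter
      (fun c => r * Real.exp (-(2 * h)) ≤ ‖c‖ ∧ ‖c‖ ≤ r * Real.exp (2 * h)), 2 * h := by
      rw [Finset.sum_const, nsmul_eq_mul]; ring
    rw [h1]
    refine (Finset.sum_le_sum fun c hc => ?_).trans
      (Finset.sum_le_sum_of_subset_of_nonneg (Finset.filter_subset _ _) fun c _ _ => ?_)
    · rw [Finset.mem_filter, Multiset.mem_toFinset] at hc
      obtain ⟨hc, hc1, hc2⟩ := hc
      have h2 := (one ‖c‖ r h (norm_nonneg _) hr hh).2 hc1 hc2
      have h3 : (1 : ℝ) ≤ D.roots.count c := by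
        exact_mod_cast Multiset.one_le_count_iff_mem.2 hc
      nlinarith
    · exact mul_nonneg (by positivity) (one ‖c‖ r h (norm_nonneg _) hr hh).1
  have h2 : ∑ c ∈ D.roots.toFinset, (D.roots.count c : ℝ) * (ph ‖c‖ (r * Real.exp (4 * h)) +
        ph ‖c‖ (r * Real.exp (-(4 * h))) - 2 * ph ‖c‖ r) =
      ∑ c ∈ D.roots.toFinset, (D.roots.count c : ℝ) * ph ‖c‖ (r * Real.exp (4 * h)) +
      ∑ c ∈ D.roots.toFinset, (D.roots.count c : ℝ) * ph ‖c‖ (r * Real.exp (-(4 * h))) -
      2 * ∑ c ∈ D.roots.toFinset, (D.roots.count c : ℝ) * ph ‖c‖ r := by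
    rw [Finset.mul_sum, ← Finset.sum_add_distrib, ← Finset.sum_sub_distrib]
    apply Finset.sum_congr rfl
    intro c _
    ring
  rw [h2] at key
  linarith

end Pool.Agent.W839.RR.Cnt
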